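import Pool.Agent.H.MP_21d915_nt.A

set_option autoImplicit false

namespace Pool.Agent.Results.MP_21d915_nt.No
open Complex Pool.Agent.H.MP_21d915_nt

def level (b : ℂ) : ℕ → Set ℂ
  | 0 => Set.range (fun q : ℚ => (q : ℂ))
  | n + 1 => {x | IsAlgebraic (Subfield.closure (level b n ∪
      (fun y => exp (y * log b)) '' level b n ∪ {w | exp (w * log b) ∈ level b n})) x}

def tower (b : ℂ) : Set ℂ := ⋃ n, level b n

theorem result : ∃ a b : ℂ, a ≠ 0 ∧ a ≠ 1 ∧ b ≠ 0 ∧ b ≠ 1 ∧
    ∀ c : ℂ, c ≠ 0 → c ≠ 1 → ¬ (tower a ⊆ tower c ∧ tower b ⊆ tower c) := by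
  have self : ∀ a : ℂ, a ≠ 0 → a ∈ tower a := by
    intro a ha
    refine Set.mem_iUnion.2 ⟨1, ?_⟩
    have : a ∈ Subfield.closure (level a 0 ∪
      (fun y => exp (y * log a)) '' level a 0 ∪ {w | exp (w * log a) ∈ level a 0}) :=
      Subfield.subset_closure (Or.inl (Or.inr ⟨1, ⟨1, by simp⟩, by simp [exp_log ha]⟩))
    exact isAlgebraic_algebraMap (⟨a, this⟩ : Subfield.closure _)
  have sub : ∀ c : ℂ, c ≠ 0 → c ≠ 1 → tower c ⊆ K (log c) := by
    intro c h0 h1
    have hl : log c ≠ 0 := fun h => h1 (by rw [← exp_log h0, h, exp_zero])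
    refine Set.iUnion_subset fun n => ?_
    induction n with
    | zero => rintro _ ⟨q, rfl⟩; exact Rep.num q
    | succ n ih =>
      intro x hx
      have hle : Subfield.closure (level c n ∪ (fun y => exp (y * log c)) '' level c n ∪
          {w | exp (w * log c) ∈ level c n}) ≤ K (log c) := by
        rw [Subfield.closure_le]
        rintro y ((hy | ⟨z, hz, rfl⟩) | hy)
        · exact ih hy
        · exact K_exp z (ih hz)
        · exact K_log hl y (ih hy)
      refine K_alg x ?_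
      exact IsAlgebraic.ringHom_of_comp_eq (Subfield.inclusion hle) (RingHom.id ℂ) hx
        (Subfield.inclusion hle).injective rfl
  obtain ⟨a, b, a0, a1, b0, b1, h⟩ := exists_pair
  exact ⟨a, b, a0, a1, b0, b1, fun c c0 c1 hc =>
    h (log c) ⟨sub c c0 c1 (hc.1 (self a a0)), sub c c0 c1 (hc.2 (self b b0))⟩⟩

end Pool.Agent.Results.MP_21d915_nt.No
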